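import Mathlib

/-!
Calibration argument in one dimension, on `Fin 1 → ℝ`.
-/

namespace Pool.Agent.W804.Pend

open MeasureTheory Set Filter Topology
open scoped Real

/-- integral over the ball of `Fin 1 → ℝ` as an integral over an interval -/
theorem int_ball (g : (Fin 1 → ℝ) → ℝ) (R : ℝ) :
    ∫ x in Metric.ball (0 : Fin 1 → ℝ) R, g x = ∫ t in Ioo (-R) R, g (fun _ => t) := by
  have hmp := (volume_preserving_funUnique (Fin 1) ℝ).symm
  have he : MeasurableEmbedding (MeasurableEquiv.funUnique (Fin 1) ℝ).symm :=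
    (MeasurableEquiv.funUnique (Fin 1) ℝ).symm.measurableEmbedding
  have h := hmp.setIntegral_preimage_emb he g (Metric.ball (0 : Fin 1 → ℝ) R)
  refine h.symm.trans ?_
  have hs : (⇑(MeasurableEquiv.funUnique (Fin 1) ℝ).symm ⁻¹' Metric.ball (0 : Fin 1 → ℝ) R)
      = Ioo (-R) R := by
    ext t
    simp only [mem_preimage, Metric.mem_ball, dist_zero_right, mem_Ioo]
    have : ‖(MeasurableEquiv.funUnique (Fin 1) ℝ).symm t‖ = |t| := by
      have h2 : (MeasurableEquiv.funUnique (Fin 1) ℝ).symm t = (fun _ => t) := by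
        ext i
        simp [MeasurableEquiv.funUnique]
      rw [h2, Pi.norm_def]
      simp
    rw [this, abs_lt]
  rw [hs]
  apply setIntegral_congr_fun measurableSet_Ioo
  intro t _
  have h2 : (MeasurableEquiv.funUnique (Fin 1) ℝ).symm t = (fun _ => t) := by
    ext i
    simp [MeasurableEquiv.funUnique]
  simp [h2]

theorem fderiv_line {w : (Fin 1 → ℝ) → ℝ} (hw : Differentiable ℝ w) (t : ℝ) (i : Fin 1) :
    fderiv ℝ w (fun _ => t) (Pi.single i (1 : ℝ)) = deriv (fun s : ℝ => w (fun _ => s)) t := by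
  have h1 : HasDerivAt (fun s : ℝ => (fun _ : Fin 1 => s)) (Pi.single i (1 : ℝ)) t := by
    rw [hasDerivAt_pi]
    intro j
    have : j = i := Subsingleton.elim _ _
    subst this
    have h0 : (Pi.single j (1 : ℝ) : Fin 1 → ℝ) j = 1 := by simp
    rw [h0]
    exact hasDerivAt_id' t
  have h2 := (hw (fun _ => t)).hasFDerivAt.comp_hasDerivAt t h1
  exact h2.deriv.symm

theorem line_apply (x : Fin 1 → ℝ) : (fun _ : Fin 1 => x 0) = x := by
  ext i
  rw [Subsingleton.elim i 0]

/-- one-dimensional calibration -/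
theorem calib {f V v ψ : ℝ → ℝ} {E R : ℝ} (hR : 0 < R) (hf : Continuous f)
    (hV : ∀ u, V u = E - f u ^ 2 / 2)
    (hv : ContDiff ℝ 1 v) (hv' : ∀ t, deriv v t = f (v t))
    (hψ : ContDiff ℝ 1 ψ) (h1 : ψ R = 0) (h2 : ψ (-R) = 0) :
    ∫ t in (-R)..R, ((1 / 2 : ℝ) * deriv v t ^ 2 - V (v t)) ≤
    ∫ t in (-R)..R, ((1 / 2 : ℝ) * deriv (fun s => v s + ψ s) t ^ 2 - V (v t + ψ t)) := by
  set K : ℝ → ℝ := fun y => ∫ s in (0 : ℝ)..y, f s with hK
  have hKd : ∀ y, HasDerivAt K (f y) y := fun y =>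
    intervalIntegral.integral_hasDerivAt_right (hf.intervalIntegrable _ _)
      (hf.stronglyMeasurableAtFilter _ _) hf.continuousAt
  have key : ∀ w : ℝ → ℝ, ContDiff ℝ 1 w →
      ∫ t in (-R)..R, f (w t) * deriv w t = K (w R) - K (w (-R)) := by
    intro w hw
    have hd : ∀ t ∈ uIcc (-R) R, HasDerivAt (fun t => K (w t)) (f (w t) * deriv w t) t := by
      intro t _
      exact (hKd (w t)).comp t ((hw.differentiable (by norm_num)) t).hasDerivAt
    have hc : Continuous (fun t => f (w t) * deriv w t) :=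
      (hf.comp hw.continuous).mul (hw.continuous_deriv (by norm_num))
    exact intervalIntegral.integral_eq_sub_of_hasDerivAt hd (hc.intervalIntegrable _ _)
  have hVc : Continuous V := by
    have : V = fun u => E - f u ^ 2 / 2 := funext hV
    rw [this]
    fun_prop
  set w : ℝ → ℝ := fun s => v s + ψ s with hw
  have hwc : ContDiff ℝ 1 w := hv.add hψ
  have hwR : w R = v R := by simp [hw, h1]
  have hwR' : w (-R) = v (-R) := by simp [hw, h2]
  have hcw' : Continuous (deriv w) := hwc.continuous_deriv (by norm_num)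
  have hcv' : Continuous (deriv v) := hv.continuous_deriv (by norm_num)
  have e1 : ∫ t in (-R)..R, ((1 / 2 : ℝ) * deriv v t ^ 2 - V (v t)) =
      ∫ t in (-R)..R, (f (w t) * deriv w t - E) := by
    have : ∀ t, (1 / 2 : ℝ) * deriv v t ^ 2 - V (v t) = f (v t) * deriv v t - E := by
      intro t
      rw [hV, hv' t]
      ring
    simp_rw [this]
    rw [intervalIntegral.integral_sub, intervalIntegral.integral_sub, key v hv, key w hwc,
      hwR, hwR']
    · exact ((hf.comp hwc.continuous).mul hcw').intervalIntegrable _ _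
    · exact intervalIntegrable_const
    · exact ((hf.comp hv.continuous).mul hcv').intervalIntegrable _ _
    · exact intervalIntegrable_const
  rw [e1]
  apply intervalIntegral.integral_mono_on (by linarith)
  · exact (((hf.comp hwc.continuous).mul hcw').sub continuous_const).intervalIntegrable _ _
  · apply Continuous.intervalIntegrable
    exact (continuous_const.mul (hcw'.pow 2)).sub (hVc.comp hwc.continuous)
  · intro t _
    have : V (v t + ψ t) = E - f (w t) ^ 2 / 2 := by rw [hV]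
    rw [this]
    nlinarith [sq_nonneg (deriv w t - f (w t))]

/-- the minimality of `x ↦ v (x 0)` in the form of the frozen statement -/
theorem minimal {f V v : ℝ → ℝ} {E : ℝ} (hf : Continuous f)
    (hV : ∀ u, V u = E - f u ^ 2 / 2)
    (hv : ContDiff ℝ (⊤ : ℕ∞) v) (hv' : ∀ t, deriv v t = f (v t))
    (φ : (Fin 1 → ℝ) → ℝ) (hφ : ContDiff ℝ (⊤ : ℕ∞) φ) (R : ℝ)
    (hs : tsupport φ ⊆ Metric.ball (0 : Fin 1 → ℝ) R) :
    ∫ x in Metric.ball (0 : Fin 1 → ℝ) R,
        ((1 / 2 : ℝ) * ∑ i : Fin 1, (fderiv ℝ (fun y : Fin 1 → ℝ => v (y 0)) x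
          (Pi.single i (1 : ℝ))) ^ 2 - V (v (x 0))) ≤
    ∫ x in Metric.ball (0 : Fin 1 → ℝ) R,
        ((1 / 2 : ℝ) * ∑ i : Fin 1,
            (fderiv ℝ (fun y : Fin 1 → ℝ => v (y 0) + φ y) x (Pi.single i (1 : ℝ))) ^ 2
          - V (v (x 0) + φ x)) := by
  rw [int_ball, int_ball]
  rcases le_or_gt R 0 with hR | hR
  · have : Ioo (-R) R = ∅ := Ioo_eq_empty (by linarith)
    rw [this]
    simp
  have hu : ContDiff ℝ (⊤ : ℕ∞) (fun y : Fin 1 → ℝ => v (y 0)) :=
    hv.comp (contDiff_apply ℝ ℝ (0 : Fin 1))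
  have hud : Differentiable ℝ (fun y : Fin 1 → ℝ => v (y 0)) := hu.differentiable (by simp)
  have hwd : Differentiable ℝ (fun y : Fin 1 → ℝ => v (y 0) + φ y) :=
    hud.add (hφ.differentiable (by simp))
  set ψ : ℝ → ℝ := fun s => φ (fun _ => s) with hψ
  have hψc : ContDiff ℝ (⊤ : ℕ∞) ψ := by
    apply hφ.comp
    rw [contDiff_pi]
    intro i
    exact contDiff_id
  have hz : ∀ s : ℝ, R ≤ |s| → ψ s = 0 := by
    intro s hs'
    have h3 : (fun _ : Fin 1 => s) ∉ tsupport φ := by
      intro h4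
      have h5 := hs h4
      rw [Metric.mem_ball, dist_zero_right, Pi.norm_def] at h5
      simp at h5
      linarith
    have h6 : φ (fun _ : Fin 1 => s) = 0 := image_eq_zero_of_notMem_tsupport h3
    exact h6
  have h1 : ψ R = 0 := hz R (le_abs_self R)
  have h2 : ψ (-R) = 0 := hz (-R) (by rw [abs_neg]; exact le_abs_self R)
  have hc := calib hR hf hV (hv.of_le (by exact_mod_cast le_top)) hv'
    (hψc.of_le (by exact_mod_cast le_top)) h1 h2
  rw [intervalIntegral.integral_of_le (by linarith), intervalIntegral.integral_of_le (by linarith),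
    integral_Ioc_eq_integral_Ioo, integral_Ioc_eq_integral_Ioo] at hc
  have ea : ∀ t : ℝ, ((1 / 2 : ℝ) * ∑ i : Fin 1, (fderiv ℝ (fun y : Fin 1 → ℝ => v (y 0))
      (fun _ => t) (Pi.single i (1 : ℝ))) ^ 2 - V (v t)) =
      (1 / 2 : ℝ) * deriv v t ^ 2 - V (v t) := by
    intro t
    rw [Fin.sum_univ_one, fderiv_line hud]
  have eb : ∀ t : ℝ, ((1 / 2 : ℝ) * ∑ i : Fin 1, (fderiv ℝ (fun y : Fin 1 → ℝ => v (y 0) + φ y)
      (fun _ => t) (Pi.single i (1 : ℝ))) ^ 2 - V (v t + φ (fun _ => t))) =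
      (1 / 2 : ℝ) * deriv (fun s => v s + ψ s) t ^ 2 - V (v t + ψ t) := by
    intro t
    rw [Fin.sum_univ_one, fderiv_line hwd]
  simp_rw [ea, eb]
  exact hc

end Pool.Agent.W804.Pend
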