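import Mathlib

/-!
Inverse of a primitive of `1/f`, `f` a smooth positive function of period one: the solutions of
`u' = f(u)`.
-/

namespace Pool.Agent.W804.Pend

open MeasureTheory Set Filter Topology Function
open scoped Real

theorem flow {f : ℝ → ℝ} (hf : ContDiff ℝ (⊤ : ℕ∞) f) (hpos : ∀ u, 0 < f u)
    (hper : ∀ u, f (u + 1) = f u) :
    ∃ g : ℝ → ℝ, ContDiff ℝ (⊤ : ℕ∞) g ∧ (∀ t, deriv g t = f (g t)) ∧
      Injective g ∧ Surjective g ∧
      (∀ t, ∀ l : ℤ, g (t + l * ∫ s in (0 : ℝ)..1, (f s)⁻¹) = g t + l) ∧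
      ∃ C, ∀ t, |g t - t / ∫ s in (0 : ℝ)..1, (f s)⁻¹| ≤ C := by
  set h : ℝ → ℝ := fun s => (f s)⁻¹ with hh
  have hhc : ContDiff ℝ (⊤ : ℕ∞) h := hf.inv (fun u => (hpos u).ne')
  have hhp : ∀ u, 0 < h u := fun u => inv_pos.mpr (hpos u)
  have hhper : Periodic h 1 := fun u => by simp [hh, hper]
  have hcont : Continuous h := hhc.continuous
  have hint : ∀ a b, IntervalIntegrable h volume a b := fun a b => hcont.intervalIntegrable a b
  set T : ℝ := ∫ s in (0 : ℝ)..1, h s with hT
  have hTpos : 0 < T := intervalIntegral.intervalIntegral_pos_of_pos (hint 0 1) hhp one_pos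
  set G : ℝ → ℝ := fun y => ∫ s in (0 : ℝ)..y, h s with hG
  have hGd : ∀ y, HasDerivAt G (h y) y := fun y =>
    intervalIntegral.integral_hasDerivAt_right (hint _ _)
      (hcont.stronglyMeasurableAtFilter _ _) hcont.continuousAt
  have hGdiff : Differentiable ℝ G := fun y => (hGd y).differentiableAt
  have hGderiv : deriv G = h := funext fun y => (hGd y).deriv
  have hGc : ContDiff ℝ (⊤ : ℕ∞) G := by
    rw [contDiff_infty_iff_deriv]
    exact ⟨hGdiff, by rw [hGderiv]; exact hhc⟩
  have hGmono : StrictMono G := strictMono_of_deriv_pos fun y => by rw [hGderiv]; exact hhp y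
  have hGsurj : Surjective G := hGdiff.continuous.surjective
    (hhper.tendsto_atTop_intervalIntegral_of_pos' (hint 0 1) hhp one_pos)
    (hhper.tendsto_atBot_intervalIntegral_of_pos' (hint 0 1) hhp one_pos)
  set e : ℝ ≃o ℝ := hGmono.orderIsoOfSurjective G hGsurj with he
  set H : ℝ ≃ₜ ℝ := e.toHomeomorph with hH
  have hHG : ∀ y, H y = G y := fun y => rfl
  have hHfun : (H : ℝ → ℝ) = G := rfl
  have hsc : ContDiff ℝ (⊤ : ℕ∞) (H.symm : ℝ → ℝ) := by
    apply H.contDiff_symm_deriv (f' := h) (fun x => (hhp x).ne')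
    · intro x
      rw [hHfun]
      exact hGd x
    · rw [hHfun]
      exact hGc
  have hGs : ∀ t, G (H.symm t) = t := fun t => by
    rw [← hHG]
    exact H.apply_symm_apply t
  have hsG : ∀ t, H.symm (G t) = t := fun t => by
    rw [← hHG]
    exact H.symm_apply_apply t
  have hGadd : ∀ y : ℝ, ∀ l : ℤ, G (y + l) = G y + l * T := by
    intro y l
    have h1 := hhper.intervalIntegral_add_zsmul_eq l y hint
    simp only [zsmul_eq_mul, mul_one] at h1
    have h2 : ∫ s in (0 : ℝ)..(y + l), h s = (∫ s in (0 : ℝ)..y, h s) +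
        ∫ s in y..(y + l), h s := (intervalIntegral.integral_add_adjacent_intervals
          (hint _ _) (hint _ _)).symm
    simp only [hG]
    rw [h2, h1, hhper.intervalIntegral_add_eq y 0, zero_add]
  have hmono : StrictMono (H.symm : ℝ → ℝ) := e.symm.strictMono
  refine ⟨H.symm, hsc, ?_, H.symm.injective, H.symm.surjective, ?_, ?_⟩
  · intro t
    have h1 : HasDerivAt (H.symm : ℝ → ℝ) (h (H.symm t))⁻¹ t := by
      have h2 : HasDerivAt (H : ℝ → ℝ) (h (H.symm t)) (H.symm t) := by
        rw [hHfun]; exact hGd _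
      exact HasDerivAt.of_local_left_inverse H.symm.continuous.continuousAt h2 (hhp _).ne'
        (Eventually.of_forall fun s => H.apply_symm_apply s)
    rw [h1.deriv]
    simp [hh]
  · intro t l
    apply H.injective
    rw [H.apply_symm_apply, hHG, hGadd, hGs]
  · refine ⟨1, fun t => ?_⟩
    set m : ℤ := ⌊t / T⌋ with hm
    have h1 : (m : ℝ) * T ≤ t := by
      have := Int.floor_le (t / T)
      rwa [le_div_iff₀ hTpos] at this
    have h2 : t < (m + 1 : ℝ) * T := by
      have := Int.lt_floor_add_one (t / T)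
      rwa [div_lt_iff₀ hTpos] at this
    have h0 : G 0 = 0 := by simp [hG]
    have h3 : H.symm ((m : ℝ) * T) = m := by
      have := hGadd 0 m
      rw [h0, zero_add, zero_add] at this
      rw [← this]
      exact hsG _
    have h4 : H.symm (((m : ℝ) + 1) * T) = m + 1 := by
      have := hGadd 0 (m + 1)
      rw [h0, zero_add, zero_add] at this
      push_cast at this
      rw [← this]
      exact hsG _
    have h5 : (m : ℝ) ≤ H.symm t := by
      rw [← h3]
      exact hmono.monotone h1
    have h6 : H.symm t ≤ m + 1 := by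
      rw [← h4]
      exact hmono.monotone h2.le
    have h7 : (m : ℝ) ≤ t / T := Int.floor_le _
    have h8 : t / T < m + 1 := Int.lt_floor_add_one _
    rw [abs_le]
    constructor <;> linarith

end Pool.Agent.W804.Pend
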