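import Mathlib

/-!
The heteroclinic orbits of the pendulum.
-/

namespace Pool.Agent.W804.Pend

open MeasureTheory Set Filter Topology Function
open scoped Real

noncomputable def het (l : ℤ) (τ t : ℝ) : ℝ := l + 2 / π * Real.arctan (τ * Real.exp (2 * π * t))

theorem het_smooth (l : ℤ) (τ : ℝ) : ContDiff ℝ (⊤ : ℕ∞) (het l τ) := by
  unfold het
  apply contDiff_const.add
  apply contDiff_const.mul
  apply Real.contDiff_arctan.comp
  fun_prop

theorem sin_two_arctan (z : ℝ) : Real.sin (2 * Real.arctan z) = 2 * z / (1 + z ^ 2) := by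
  have h : (0 : ℝ) < 1 + z ^ 2 := by positivity
  rw [Real.sin_two_mul, Real.sin_arctan, Real.cos_arctan]
  have h2 : 2 * (z / √(1 + z ^ 2)) * (1 / √(1 + z ^ 2)) =
      2 * z / (√(1 + z ^ 2) * √(1 + z ^ 2)) := by ring
  rw [h2, Real.mul_self_sqrt h.le]

noncomputable def spd0 (u : ℝ) : ℝ := 2 * |Real.sin (π * u)|

theorem spd0_cont : Continuous spd0 := by unfold spd0; fun_prop

theorem spd0_sq (u : ℝ) : Real.cos (2 * π * u) = 1 - spd0 u ^ 2 / 2 := by
  rw [spd0, mul_pow, sq_abs, mul_assoc, Real.cos_two_mul, Real.sin_sq]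
  ring

theorem het_deriv (l : ℤ) (τ t : ℝ) (hτ : 0 ≤ τ) : deriv (het l τ) t = spd0 (het l τ t) := by
  set z := τ * Real.exp (2 * π * t) with hz
  have hzn : 0 ≤ z := mul_nonneg hτ (Real.exp_pos _).le
  have h1 : HasDerivAt (fun t => τ * Real.exp (2 * π * t)) (τ * (Real.exp (2 * π * t) * (2 * π)))
      t := by
    have := ((hasDerivAt_id t).const_mul (2 * π)).exp.const_mul τ
    simpa using this
  have h2 : HasDerivAt (het l τ) (2 / π * (1 / (1 + z ^ 2) *
      (τ * (Real.exp (2 * π * t) * (2 * π))))) t := by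
    have := (h1.arctan.const_mul (2 / π)).const_add (l : ℝ)
    exact this
  rw [h2.deriv, spd0, het]
  have h3 : π * ((l : ℝ) + 2 / π * Real.arctan (τ * Real.exp (2 * π * t))) =
      2 * Real.arctan z + l * π := by
    have := Real.pi_pos.ne'
    rw [hz]
    field_simp
    ring
  rw [h3, Real.sin_add_int_mul_pi, abs_mul, abs_zpow, abs_neg, abs_one, one_zpow, one_mul,
    sin_two_arctan, abs_of_nonneg (by positivity)]
  have := Real.pi_pos.ne'
  have h4 : (1 + z ^ 2) ≠ 0 := by positivity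
  rw [hz] at h4 ⊢
  field_simp

theorem het_mem (l : ℤ) (τ t : ℝ) (hτ : 0 ≤ τ) : (l : ℝ) ≤ het l τ t ∧ het l τ t < l + 1 := by
  have hzn : 0 ≤ τ * Real.exp (2 * π * t) := mul_nonneg hτ (Real.exp_pos _).le
  have h1 : 0 ≤ Real.arctan (τ * Real.exp (2 * π * t)) := Real.arctan_nonneg.mpr hzn
  have h2 := Real.arctan_lt_pi_div_two (τ * Real.exp (2 * π * t))
  have hπ := Real.pi_pos
  unfold het
  constructor
  · have : 0 ≤ 2 / π * Real.arctan (τ * Real.exp (2 * π * t)) := by positivity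
    linarith
  · have : 2 / π * Real.arctan (τ * Real.exp (2 * π * t)) < 2 / π * (π / 2) := by
      apply mul_lt_mul_of_pos_left h2
      positivity
    have h3 : 2 / π * (π / 2) = 1 := by field_simp
    linarith

theorem het_bdd (l : ℤ) (τ t : ℝ) (hτ : 0 ≤ τ) : |het l τ t| ≤ |(l : ℝ)| + 1 := by
  have h := het_mem l τ t hτ
  have h1 := le_abs_self (l : ℝ)
  have h2 := neg_abs_le (l : ℝ)
  rw [abs_le]
  constructor <;> linarith [h.1, h.2]

theorem het_shift (l : ℤ) (τ t : ℝ) (k m : ℤ) :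
    het l τ (t + k) + m = het (l + m) (τ * Real.exp (2 * π * k)) t := by
  unfold het
  have : Real.exp (2 * π * (t + k)) = Real.exp (2 * π * k) * Real.exp (2 * π * t) := by
    rw [← Real.exp_add]
    ring_nf
  rw [this]
  push_cast
  ring_nf

/-- exactly one pair `(l, τ)` through every point -/
theorem het_through (t y : ℝ) : ∃ l : ℤ, ∃ τ : ℝ, 0 ≤ τ ∧ het l τ t = y ∧
    ∀ l' : ℤ, ∀ τ' : ℝ, 0 ≤ τ' → het l' τ' t = y → l' = l ∧ τ' = τ := by
  have hπ := Real.pi_pos
  have hf0 := Int.fract_nonneg y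
  have hf1 := Int.fract_lt_one y
  set θ : ℝ := π / 2 * Int.fract y with hθ
  have hθ0 : 0 ≤ θ := by positivity
  have hθ1 : θ < π / 2 := by
    calc θ < π / 2 * 1 := mul_lt_mul_of_pos_left hf1 (by positivity)
      _ = π / 2 := mul_one _
  have hE := Real.exp_pos (2 * π * t)
  refine ⟨⌊y⌋, Real.tan θ * Real.exp (-(2 * π * t)), ?_, ?_, ?_⟩
  · exact mul_nonneg (Real.tan_nonneg_of_nonneg_of_le_pi_div_two hθ0 hθ1.le) (Real.exp_pos _).le
  · unfold het
    rw [mul_assoc, ← Real.exp_add, neg_add_cancel, Real.exp_zero, mul_one,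
      Real.arctan_tan (by linarith) hθ1, hθ]
    have h1 : 2 / π * (π / 2 * Int.fract y) = Int.fract y := by field_simp
    rw [h1, Int.floor_add_fract]
  · intro l' τ' hτ' h
    have hm := het_mem l' τ' t hτ'
    rw [h] at hm
    have hl : l' = ⌊y⌋ := by
      symm
      rw [Int.floor_eq_iff]
      exact hm
    refine ⟨hl, ?_⟩
    have h2 : Real.arctan (τ' * Real.exp (2 * π * t)) = θ := by
      unfold het at h
      rw [hl] at h
      have h3 : 2 / π * Real.arctan (τ' * Real.exp (2 * π * t)) = Int.fract y := by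
        have := Int.floor_add_fract y
        linarith
      rw [hθ, ← h3]
      field_simp
    have h4 : τ' * Real.exp (2 * π * t) = Real.tan θ := by
      rw [← h2, Real.tan_arctan]
    rw [← h4, mul_assoc, ← Real.exp_add, add_neg_cancel, Real.exp_zero, mul_one]

end Pool.Agent.W804.Pend
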