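import Mathlib

/-!
The period of the pendulum takes all positive values.
-/

namespace Pool.Agent.W804.Pend

open MeasureTheory Set Filter Topology Function
open scoped Real

/-- the speed of the rotating pendulum of energy `1 + exp s` -/
noncomputable def spd (s u : ℝ) : ℝ := √(2 * (1 + Real.exp s - Real.cos (2 * π * u)))

theorem spd_arg_pos (s u : ℝ) : 0 < 2 * (1 + Real.exp s - Real.cos (2 * π * u)) := by
  have := Real.exp_pos s
  have := Real.cos_le_one (2 * π * u)
  linarith

theorem spd_pos (s u : ℝ) : 0 < spd s u := Real.sqrt_pos.mpr (spd_arg_pos s u)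

theorem spd_sq (s u : ℝ) : Real.cos (2 * π * u) = (1 + Real.exp s) - spd s u ^ 2 / 2 := by
  rw [spd, Real.sq_sqrt (spd_arg_pos s u).le]
  ring

theorem spd_per (s u : ℝ) : spd s (u + 1) = spd s u := by
  have : Real.cos (2 * π * (u + 1)) = Real.cos (2 * π * u) := by
    rw [mul_add, mul_one, Real.cos_add_two_pi]
  rw [spd, spd, this]

theorem spd_smooth (s : ℝ) : ContDiff ℝ (⊤ : ℕ∞) (spd s) := by
  unfold spd
  apply ContDiff.sqrt
  · fun_prop
  · intro u
    exact (spd_arg_pos s u).ne'

theorem spd_cont : Continuous (fun p : ℝ × ℝ => (spd p.1 p.2)⁻¹) := by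
  apply Continuous.inv₀
  · unfold spd
    fun_prop
  · intro p
    exact (spd_pos p.1 p.2).ne'

noncomputable def per (s : ℝ) : ℝ := ∫ u in (0 : ℝ)..1, (spd s u)⁻¹

theorem per_cont : Continuous per := by
  unfold per
  exact intervalIntegral.continuous_parametric_intervalIntegral_of_continuous' (f := fun s u =>
    (spd s u)⁻¹) spd_cont 0 1

theorem per_small (T : ℝ) (hT : 0 < T) : ∃ s, per s ≤ T := by
  refine ⟨2 * Real.log (1 / T), ?_⟩
  have h1 : ∀ u, (spd (2 * Real.log (1 / T)) u)⁻¹ ≤ T := by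
    intro u
    have hT' : 0 < 1 / T := by positivity
    have h2 : 1 / T ≤ spd (2 * Real.log (1 / T)) u := by
      apply Real.le_sqrt_of_sq_le
      have h3 : Real.exp (2 * Real.log (1 / T)) = (1 / T) ^ 2 := by
        rw [mul_comm, Real.exp_mul, Real.exp_log hT']
        norm_cast
      rw [h3]
      have := Real.cos_le_one (2 * π * u)
      nlinarith [sq_nonneg (1 / T)]
    calc (spd (2 * Real.log (1 / T)) u)⁻¹ ≤ (1 / T)⁻¹ := by
          apply inv_anti₀ hT' h2
      _ = T := by simp
  have hc : Continuous (fun u => (spd (2 * Real.log (1 / T)) u)⁻¹) :=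
    spd_cont.comp (Continuous.prodMk_right _)
  calc per (2 * Real.log (1 / T)) ≤ ∫ u in (0 : ℝ)..1, T := by
        apply intervalIntegral.integral_mono_on (by norm_num) (hc.intervalIntegrable _ _)
          intervalIntegrable_const
        intro u _
        exact h1 u
    _ = T := by simp

theorem per_large (T : ℝ) (hT : 0 < T) : ∃ s, T ≤ per s := by
  set ε : ℝ := Real.exp (-(2 * π * T)) with hε
  have hεp : 0 < ε := Real.exp_pos _
  refine ⟨Real.log (2 * π ^ 2 * ε ^ 2), ?_⟩
  set s := Real.log (2 * π ^ 2 * ε ^ 2) with hs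
  have hπ := Real.pi_pos
  have hes : Real.exp s = 2 * π ^ 2 * ε ^ 2 := Real.exp_log (by positivity)
  have h1 : ∀ u ∈ Icc (0 : ℝ) 1, (2 * π)⁻¹ * (ε + u)⁻¹ ≤ (spd s u)⁻¹ := by
    intro u hu
    rw [← mul_inv]
    apply inv_anti₀ (spd_pos s u)
    rw [spd]
    apply Real.sqrt_le_iff.mpr
    constructor
    · have := hu.1
      positivity
    · rw [hes]
      have h2 := Real.one_sub_sq_div_two_le_cos (x := 2 * π * u)
      have h3 : 0 ≤ ε * u := mul_nonneg hεp.le hu.1
      nlinarith [mul_nonneg (sq_nonneg π) h3]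
  have hc : Continuous (fun u => (spd s u)⁻¹) :=
    spd_cont.comp (Continuous.prodMk_right _)
  have h4 : ∫ u in (0 : ℝ)..1, (2 * π)⁻¹ * (ε + u)⁻¹ ≤ per s := by
    apply intervalIntegral.integral_mono_on (by norm_num) _ (hc.intervalIntegrable _ _) h1
    apply ContinuousOn.intervalIntegrable
    intro u hu
    rw [uIcc_of_le (by norm_num)] at hu
    have : ε + u ≠ 0 := by
      have := hu.1
      positivity
    apply ContinuousAt.continuousWithinAt
    fun_prop (disch := assumption)
  have h5 : ∫ u in (0 : ℝ)..1, (2 * π)⁻¹ * (ε + u)⁻¹ = (2 * π)⁻¹ * Real.log ((ε + 1) / ε) := by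
    rw [intervalIntegral.integral_const_mul]
    congr 1
    have h6 : ∫ u in (0 : ℝ)..1, (ε + u)⁻¹ = ∫ x in (ε + 0)..(ε + 1), x⁻¹ :=
      intervalIntegral.integral_comp_add_left (fun x => x⁻¹) ε
    rw [h6, integral_inv_of_pos (by linarith) (by linarith), add_zero]
  rw [h5] at h4
  refine le_trans ?_ h4
  have h7 : 2 * π * T ≤ Real.log ((ε + 1) / ε) := by
    rw [Real.le_log_iff_exp_le (by positivity)]
    rw [le_div_iff₀ hεp, hε, ← Real.exp_add]
    simp [Real.exp_nonneg]
  calc T = (2 * π)⁻¹ * (2 * π * T) := by field_simp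
    _ ≤ _ := by
      apply mul_le_mul_of_nonneg_left h7
      positivity

theorem per_all (T : ℝ) (hT : 0 < T) : ∃ s, per s = T := by
  obtain ⟨a, ha⟩ := per_small T hT
  obtain ⟨b, hb⟩ := per_large T hT
  exact mem_range_of_exists_le_of_exists_ge per_cont ⟨a, ha⟩ ⟨b, hb⟩

end Pool.Agent.W804.Pend
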